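import Pool.Agent.Helper98.QR.IfaceD

/-!
# Labelled planar maps, triangulations, packings: definitions for block D

A labelled planar map: darts `D`, rotation `rot`, reversal `opp`, `vt d` = tail vertex of `d`,
`fc d` = the face of `d`; `face d = rot (opp d)` is the next dart of the same face; its tail is the
head `vt (opp d)` of `d`.  The labels are only required to be constant on the orbits; the Euler relation
for the labels implies that they separate the orbits (`ST_ORB`).
-/

namespace CP

noncomputable section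

open Finset

/-- labelled planar map -/
structure LM (D V F : Type) [Fintype D] [Fintype V] [Fintype F] where
  rot : Equiv.Perm D
  opp : Equiv.Perm D
  opp_opp : ∀ d, opp (opp d) = d
  opp_ne : ∀ d, opp d ≠ d
  vt : D → V
  fc : D → F
  vt_rot : ∀ d, vt (rot d) = vt d
  fc_face : ∀ d, fc (rot (opp d)) = fc d
  vt_surj : Function.Surjective vt
  fc_surj : Function.Surjective fc
  ne : Nonempty D
  conn : ∀ S : Set D, S.Nonempty → (∀ d ∈ S, rot d ∈ S) → (∀ d ∈ S, opp d ∈ S) → S = Set.univ
  euler : 2 * (Fintype.card V + Fintype.card F) = Fintype.card D + 4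

namespace LM

variable {D V F : Type} [Fintype D] [Fintype V] [Fintype F]

/-- the next dart of the same face: `face d = rot (opp d)` -/
def face (m : LM D V F) : Equiv.Perm D := m.opp.trans m.rot

/-- the next vertex of the face of `d`: the head of `d` -/
def v1 (m : LM D V F) (d : D) : V := m.vt (m.face d)

/-- the vertex after that (in a triangulation: the third vertex of the face of `d`) -/
def v2 (m : LM D V F) (d : D) : V := m.vt (m.face (m.face d))

/-- all faces are triangles, no loops, no multiple edges -/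
structure Tri (m : LM D V F) : Prop where
  f3 : ∀ d, m.face (m.face (m.face d)) = d
  fib : ∀ d d', m.fc d' = m.fc d → d' = d ∨ d' = m.face d ∨ d' = m.face (m.face d)
  noloop : ∀ d, m.vt d ≠ m.vt (m.opp d)
  inj : ∀ d d', m.vt d = m.vt d' → m.vt (m.opp d) = m.vt (m.opp d') → d = d'

/-- `v` is one of the three vertices of the face of `o` (the outer face of a triangulation) -/
def outer (m : LM D V F) (o : D) (v : V) : Prop := v = m.vt o ∨ v = m.v1 o ∨ v = m.v2 o

open Classical in
/-- degree of a vertex -/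
def dg (m : LM D V F) (v : V) : ℕ := (Finset.univ.filter (fun d => m.vt d = v)).card

end LM

/-- inradius of the triangle formed by the centres of three mutually tangent discs of radii `x y z` -/
def rho (x y z : ℝ) : ℝ := Real.sqrt (x * y * z / (x + y + z))

/-- angle at the centre of the disc of radius `x` -/
def ang (x y z : ℝ) : ℝ := 2 * Real.arctan (rho x y z / x)

namespace LM

variable {D V F : Type} [Fintype D] [Fintype V] [Fintype F]

/-- the angle at the tail of `d` in the face of `d` (a triangle) for the radii `R` -/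
def angd (m : LM D V F) (R : V → ℝ) (d : D) : ℝ := ang (R (m.vt d)) (R (m.v1 d)) (R (m.v2 d))

open Classical in
/-- radii: `1` at the three outer vertices, angle sum `2 π` at all other vertices -/
structure Radii (m : LM D V F) (o : D) (R : V → ℝ) : Prop where
  pos : ∀ v, 0 < R v
  out : ∀ v, m.outer o v → R v = 1
  sum : ∀ v, ¬ m.outer o v → ∑ d with m.vt d = v, m.angd R d = 2 * Real.pi

/-- layout: centres `z` for the radii `R`; `dist`: discs of adjacent vertices are tangent; `ang`: every
face except the outer one is a positively oriented triangle `vt d, v1 d, v2 d` with angle `angd R d` at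
`vt d` -/
structure Layout (m : LM D V F) (o : D) (R : V → ℝ) (z : V → ℂ) : Prop where
  dist : ∀ d, ‖z (m.vt (m.opp d)) - z (m.vt d)‖ = R (m.vt d) + R (m.vt (m.opp d))
  ang : ∀ d, m.fc d ≠ m.fc o →
    (z (m.v2 d) - z (m.vt d)) * ((R (m.vt d) + R (m.v1 d) : ℝ) : ℂ) =
      (z (m.v1 d) - z (m.vt d)) * ((R (m.vt d) + R (m.v2 d) : ℝ) : ℂ) *
        Complex.exp ((m.angd R d : ℝ) * Complex.I)

end LM

/-- existence of radii -/
def ST_RAD : Prop :=
  ∀ (D V F : Type) [Fintype D] [Fintype V] [Fintype F] (m : LM D V F) (o : D), m.Tri →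
    ∃ R : V → ℝ, m.Radii o R

/-- layout -/
def ST_LAY : Prop :=
  ∀ (D V F : Type) [Fintype D] [Fintype V] [Fintype F] (m : LM D V F) (o : D) (R : V → ℝ), m.Tri →
    m.Radii o R → ∃ z : V → ℂ, m.Layout o R z

/-- all discs are disjoint (also those of the outer vertices) -/
def ST_DISJ : Prop :=
  ∀ (D V F : Type) [Fintype D] [Fintype V] [Fintype F] (m : LM D V F) (o : D) (R : V → ℝ) (z : V → ℂ),
    m.Tri → m.Radii o R → m.Layout o R z →
    ∀ u v, u ≠ v → R u + R v ≤ ‖z u - z v‖

/-- ring lemma at an inner vertex of degree at most `Δ` -/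
def ST_RINGL : Prop :=
  ∀ Δ : ℕ, ∃ K : ℝ, 1 ≤ K ∧
  ∀ (D V F : Type) [Fintype D] [Fintype V] [Fintype F] (m : LM D V F) (o : D) (R : V → ℝ) (z : V → ℂ),
    m.Tri → m.Radii o R → m.Layout o R z → (∀ u v, u ≠ v → R u + R v ≤ ‖z u - z v‖) →
    ∀ v, ¬ m.outer o v → m.dg v ≤ Δ → ∀ d, m.vt d = v → R v ≤ K * R (m.vt (m.opp d))

/-- the packing theorem in the form used for the disc models -/
def ST_PACK : Prop :=
  ∀ Δ : ℕ, ∃ K : ℝ, 1 ≤ K ∧
  ∀ (D V F : Type) [Fintype D] [Fintype V] [Fintype F] (m : LM D V F) (o : D), m.Tri →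
    ∃ (z : V → ℂ) (R : V → ℝ), (∀ v, 0 < R v) ∧ (∀ u v, u ≠ v → R u + R v ≤ ‖z u - z v‖) ∧
      (∀ d, ‖z (m.vt (m.opp d)) - z (m.vt d)‖ = R (m.vt d) + R (m.vt (m.opp d))) ∧
      (∀ d, ¬ m.outer o (m.vt d) → m.dg (m.vt d) ≤ Δ → R (m.vt d) ≤ K * R (m.vt (m.opp d)))

theorem st_PACK (h1 : ST_RAD) (h2 : ST_LAY) (h3 : ST_DISJ) (h4 : ST_RINGL) : ST_PACK := by
  intro Δ
  obtain ⟨K, hK, hR⟩ := h4 Δ
  refine ⟨K, hK, ?_⟩
  intro D V F _ _ _ m o hT
  obtain ⟨R, hr⟩ := h1 D V F m o hT
  obtain ⟨z, hz⟩ := h2 D V F m o R hT hr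
  have hd := h3 D V F m o R z hT hr hz
  exact ⟨z, R, hr.pos, hd, hz.dist,
    fun d hd1 hd2 => hR D V F m o R z hT hr hz hd _ hd1 hd2 d rfl⟩

/-- labels separate orbits -/
def ST_ORB : Prop :=
  ∀ (D V F : Type) [Fintype D] [Fintype V] [Fintype F] (m : LM D V F),
    (∀ d d', m.vt d = m.vt d' → m.rot.SameCycle d d') ∧
    (∀ d d', m.fc d = m.fc d' → m.face.SameCycle d d')

open Classical in
/-- exactness: an antisymmetric function on the darts with zero sum around all faces but one is a
gradient -/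
def ST_EXA : Prop :=
  ∀ (D V F : Type) [Fintype D] [Fintype V] [Fintype F] (m : LM D V F) (A : Type) [AddCommGroup A]
    (f : D → A) (o : D), (∀ d, f (m.opp d) = - f d) →
    (∀ φ, φ ≠ m.fc o → ∑ d with m.fc d = φ, f d = 0) →
    ∃ g : V → A, ∀ d, f d = g (m.vt (m.opp d)) - g (m.vt d)

open Classical in
/-- dual exactness: zero sum around all vertices but one -/
def ST_EXD : Prop :=
  ∀ (D V F : Type) [Fintype D] [Fintype V] [Fintype F] (m : LM D V F) (A : Type) [AddCommGroup A]
    (f : D → A) (v0 : V), (∀ d, f (m.opp d) = - f d) →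
    (∀ v, v ≠ v0 → ∑ d with m.vt d = v, f d = 0) →
    ∃ g : F → A, ∀ d, f d = g (m.fc (m.opp d)) - g (m.fc d)

/-- the graph of a simple map of degree at most 3 embeds in a triangulation -/
def ST_TRI : Prop :=
  ∀ (D V F : Type) [Fintype D] [Fintype V] [Fintype F] (m : LM D V F),
    (∀ d, m.vt d ≠ m.vt (m.opp d)) →
    (∀ d d', m.vt d = m.vt d' → m.vt (m.opp d) = m.vt (m.opp d') → d = d') →
    (∀ d, m.face (m.face d) ≠ d) →
    ∃ (D2 V2 F2 : Type) (_ : Fintype D2) (_ : Fintype V2) (_ : Fintype F2) (T : LM D2 V2 F2)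
      (i : V → V2) (o : D2), T.Tri ∧ Function.Injective i ∧ (∀ v, ¬ T.outer o (i v)) ∧
      (∀ d, ∃ x, T.vt x = i (m.vt d) ∧ T.vt (T.opp x) = i (m.vt (m.opp d))) ∧
      (∀ v, T.dg (i v) = 3 * m.dg v)

end

end CP
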