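import Pool.Agent.Helper58.CP.Stmts

namespace CP58

open CP Finset Classical

theorem st_COT : ST_COT := by
  intro D V F _ _ _ rot opp vt fc T r hoo hvr hff hsurj hT hconn hK S hS hcl
  have hfo : ∀ d, fc (opp d) = fc (rot d) := by
    intro d
    have := hff (opp d)
    rw [hoo] at this
    exact this.symm
  have key : ∀ d, (if fc d ∈ S then (1 : ZMod 2) else 0) +
      (if fc (opp d) ∈ S then (1 : ZMod 2) else 0) = 0 := by
    apply hK
    · intro d
      rw [hoo, ZMod.neg_eq_self_mod_two, add_comm]
    · intro d hd
      have h1 := hcl d hd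
      have h2 : fc (opp d) ∈ S → fc d ∈ S := by
        intro h
        have h3 : opp d ∉ T := fun h4 => hd (by simpa [hoo] using hT _ h4)
        have := hcl (opp d) h3 h
        rwa [hoo] at this
      by_cases h : fc d ∈ S
      · rw [if_pos h, if_pos (h1 h)]
        decide
      · rw [if_neg h, if_neg (fun h' => h (h2 h'))]
        simp
    · intro v _
      rw [Finset.sum_add_distrib]
      have : (∑ d with vt d = v, (if fc (opp d) ∈ S then (1 : ZMod 2) else 0)) =
          ∑ d with vt d = v, (if fc d ∈ S then (1 : ZMod 2) else 0) := by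
        refine Finset.sum_equiv rot ?_ ?_
        · intro d
          simp [hvr]
        · intro d _
          rw [hfo]
      rw [this]
      exact CharTwo.add_self_eq_zero _
  have h2 : ∀ d, fc d ∈ S → fc (opp d) ∈ S := by
    intro d hd
    by_contra h
    have := key d
    rw [if_pos hd, if_neg h] at this
    simp at this
  have h3 : {d | fc d ∈ S} = Set.univ := by
    apply hconn
    · obtain ⟨φ, hφ⟩ := hS
      obtain ⟨d, rfl⟩ := hsurj φ
      exact ⟨d, hφ⟩
    · intro d hd
      have := h2 d hd
      rw [hfo] at this
      exact this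
    · intro d hd
      exact h2 d hd
  ext φ
  simp only [Set.mem_univ, iff_true]
  obtain ⟨d, rfl⟩ := hsurj φ
  have : d ∈ {d | fc d ∈ S} := by rw [h3]; trivial
  exact this

end CP58
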