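import Pool.Agent.Helper58.CP.COT
import Pool.Agent.Helper25.QD.SPAN
import Pool.Agent.Helper25.QD.P0C
import Pool.Agent.Helper25.QD.LEV
import Pool.Agent.Helper61.QD.GEN
import Pool.Agent.Helper74.QD.P0
import Pool.Agent.Helper87.QD.EXA
import Pool.Agent.Helper22.QR.BD3
import Pool.Agent.Helper22.QR.P0V
import Pool.Agent.Helper63.QD.CRIT
import Pool.Agent.Helper66.QD.GF
import Pool.Agent.Helper66.QD.RAD
import Pool.Agent.Helper4.QD.TRIG
import Pool.Agent.Helper28.QD.DIR
import Pool.Agent.Helper79.QD.LAY
import Pool.Agent.Helper46.CP.DISJ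
import Pool.Agent.Helper46.CP.RINGL
import Pool.Agent.Helper33.QR.Tri
import Pool.Agent.Helper33.QR.Dm2
import Pool.Agent.Helper18.QD.PL
import Pool.Agent.Helper48.QD.FILL

/-!
# Block D of QR complete: planar exactness, filling, circle packing theorem + ring lemma, disc models
-/

namespace CP

theorem gen : ST_GEN := QD61.st_GEN QD25.st_TREE CP58.st_COT

theorem orb : ST_ORB := QD87.st_ORB gen

theorem exa : ST_EXA := QD87.st_EXA QD25.st_TREE CP58.st_COT

theorem exd : ST_EXD := QD87.st_EXD exa

theorem bipl : ST_BIPL := QD87.st_BIPL exa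

theorem p0 : ST_P0 := QD74.st_P0 (QD25.st_P0C QD25.st_TREE QR22.st_BD3) orb

theorem rad : ST_RAD :=
  QD66.st_RAD (QD63.st_CRIT (QD25.st_LEV (QR22.st_P0V p0)) QD66.st_GF) QD4.st_RHO

theorem lay : ST_LAY := QD79.st_LAY (QD28.st_DIR exd QD4.st_ANG) exa QD4.st_CLO

/-- circle packing theorem for simple triangulations of the sphere, with the ring lemma -/
theorem pack : ST_PACK := st_PACK rad lay CPW.st_DISJ CPW.st_RINGL

end CP

namespace QR

/-- planar exactness -/
theorem pl : ST_PL := QD18.st_PL CP.exa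

/-- filling a face -/
theorem fill : ST_FILL := QD48.st_FILL CP.orb

/-- every quadrangulation of the sphere has a disc model with an absolute constant -/
theorem dm : ST_DM := QR33.st_DM CP.pack

end QR
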