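import Pool.Agent.Helper58.CP.Defs

/-!
# Block D of QR: statements of the rows for exactness, radii and layout
-/

namespace CP

noncomputable section

open Finset Classical

/-- spanning tree of a finite connected multigraph (darts `D`, involution `ι`, node map `ν`, allowed
darts `C`), with the two exactness properties of trees -/
def ST_TREE : Prop :=
  ∀ (D N : Type) [Fintype D] [Fintype N] (ι : D → D) (ν : D → N) (C : Finset D) (r : N),
    (∀ d, ι (ι d) = d) → (∀ d, ι d ≠ d) → (∀ d ∈ C, ι d ∈ C) →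
    (∀ S : Set N, r ∈ S → (∀ d ∈ C, ν d ∈ S → ν (ι d) ∈ S) → S = Set.univ) →
    ∃ T : Finset D, T ⊆ C ∧ (∀ d ∈ T, ι d ∈ T) ∧ T.card + 2 = 2 * Fintype.card N ∧
      (∀ (A : Type) [AddCommGroup A] (f : D → A), (∀ d ∈ T, f (ι d) = - f d) →
        ∃ g : N → A, ∀ d ∈ T, f d = g (ν (ι d)) - g (ν d)) ∧
      (∀ (A : Type) [AddCommGroup A] (h : D → A), (∀ d, h (ι d) = - h d) → (∀ d, d ∉ T → h d = 0) →
        (∀ n, n ≠ r → ∑ d with ν d = n, h d = 0) → ∀ d, h d = 0)

/-- the complement of a spanning tree connects the faces (no Euler relation) -/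
def ST_COT : Prop :=
  ∀ (D V F : Type) [Fintype D] [Fintype V] [Fintype F] (rot opp : Equiv.Perm D) (vt : D → V)
    (fc : D → F) (T : Finset D) (r : V),
    (∀ d, opp (opp d) = d) → (∀ d, vt (rot d) = vt d) → (∀ d, fc (rot (opp d)) = fc d) →
    Function.Surjective fc → (∀ d ∈ T, opp d ∈ T) →
    (∀ S : Set D, S.Nonempty → (∀ d ∈ S, rot d ∈ S) → (∀ d ∈ S, opp d ∈ S) → S = Set.univ) →
    (∀ h : D → ZMod 2, (∀ d, h (opp d) = - h d) → (∀ d, d ∉ T → h d = 0) →
      (∀ v, v ≠ r → ∑ d with vt d = v, h d = 0) → ∀ d, h d = 0) →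
    ∀ S : Set F, S.Nonempty → (∀ d, d ∉ T → fc d ∈ S → fc (opp d) ∈ S) → S = Set.univ

/-- the genus is nonnegative (for labels which are constant on the orbits and surjective) -/
def ST_GEN : Prop :=
  ∀ (D V F : Type) [Fintype D] [Fintype V] [Fintype F] (rot opp : Equiv.Perm D) (vt : D → V)
    (fc : D → F), Nonempty D →
    (∀ d, opp (opp d) = d) → (∀ d, opp d ≠ d) → (∀ d, vt (rot d) = vt d) →
    (∀ d, fc (rot (opp d)) = fc d) → Function.Surjective vt → Function.Surjective fc →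
    (∀ S : Set D, S.Nonempty → (∀ d ∈ S, rot d ∈ S) → (∀ d ∈ S, opp d ∈ S) → S = Set.univ) →
    2 * (Fintype.card V + Fintype.card F) ≤ Fintype.card D + 4

/-- all face degrees even: the vertices can be two-coloured -/
def ST_BIPL : Prop :=
  ∀ (D V F : Type) [Fintype D] [Fintype V] [Fintype F] (m : LM D V F) (o : D),
    (∀ φ, φ ≠ m.fc o → Even (Finset.univ.filter (fun d => m.fc d = φ)).card) →
    ∃ col : V → Bool, ∀ d, col (m.vt (m.opp d)) ≠ col (m.vt d)

/-- the boundary of a proper nonempty set of faces of a triangulation has at least three edges -/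
def ST_BD3 : Prop :=
  ∀ (D V F : Type) [Fintype D] [Fintype V] [Fintype F] (m : LM D V F), m.Tri →
    ∀ S : Set F, S.Nonempty → S ≠ Set.univ →
      3 ≤ (Finset.univ.filter (fun d => m.fc d ∈ S ∧ m.fc (m.opp d) ∉ S)).card

/-- the set of faces (labels) meeting `A` -/
def meets {D V F : Type} [Fintype D] [Fintype V] [Fintype F] (m : LM D V F) (A : Finset V) : Set F :=
  {φ | ∃ d, m.fc d = φ ∧ m.vt d ∈ A}

/-- the basic inequality in the case that the faces meeting `A` are connected across the edges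
meeting `A` -/
def ST_P0C : Prop :=
  ∀ (D V F : Type) [Fintype D] [Fintype V] [Fintype F] (m : LM D V F), m.Tri →
    ∀ A : Finset V, A.Nonempty → meets m A ≠ Set.univ →
      (∀ S : Set F, S.Nonempty → S ⊆ meets m A →
        (∀ d, (m.vt d ∈ A ∨ m.vt (m.opp d) ∈ A) → m.fc d ∈ S → m.fc (m.opp d) ∈ S) →
        S = meets m A) →
      6 * A.card + 3 ≤ (Finset.univ.filter (fun d => m.fc d ∈ meets m A)).card

/-- the basic inequality: at least `2 |A| + 1` faces meet `A` -/
def ST_P0 : Prop :=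
  ∀ (D V F : Type) [Fintype D] [Fintype V] [Fintype F] (m : LM D V F), m.Tri →
    ∀ A : Finset V, A.Nonempty → meets m A ≠ Set.univ →
      6 * A.card + 3 ≤ (Finset.univ.filter (fun d => m.fc d ∈ meets m A)).card

/-- the same in vertex form, and its complementary form: for `A` without outer vertices at most
`2 |A| - 1` faces are contained in `A` -/
def ST_P0V : Prop :=
  ∀ (D V F : Type) [Fintype D] [Fintype V] [Fintype F] (m : LM D V F) (o : D), m.Tri →
    ∀ A : Finset V, A.Nonempty → (∀ v ∈ A, ¬ m.outer o v) →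
      6 * A.card + 3 ≤
        (Finset.univ.filter (fun d => m.vt d ∈ A ∨ m.v1 d ∈ A ∨ m.v2 d ∈ A)).card ∧
      (Finset.univ.filter (fun d => m.vt d ∈ A ∧ m.v1 d ∈ A ∧ m.v2 d ∈ A)).card + 3 ≤ 6 * A.card

/-- level set inequality -/
def ST_LEV : Prop :=
  ∀ (D V F : Type) [Fintype D] [Fintype V] [Fintype F] (m : LM D V F) (o : D), m.Tri →
    ∀ u : V → ℝ, (∀ v, m.outer o v → u v = 0) → ∀ v0,
      3 * |u v0| ≤ 6 * ∑ v, u v - ∑ d, min (u (m.vt d)) (min (u (m.v1 d)) (u (m.v2 d)))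

/-- the scalar function of the energy -/
def ST_GF : Prop :=
  ∃ G : ℝ → ℝ, (∀ s, HasDerivAt G (Real.arctan (Real.exp s) - Real.pi / 4) s) ∧
    ∀ s, Real.pi / 4 * |s| - 1 ≤ G s

/-- the critical point of the energy -/
def ST_CRIT : Prop :=
  ∀ (D V F : Type) [Fintype D] [Fintype V] [Fintype F] (m : LM D V F) (o : D), m.Tri →
    ∃ (u : V → ℝ) (w : F → ℝ), (∀ v, m.outer o v → u v = 0) ∧
      (∀ φ, ∑ d with m.fc d = φ, Real.arctan (Real.exp (u (m.vt d) - w φ)) = Real.pi) ∧
      (∀ v, ¬ m.outer o v → ∑ d with m.vt d = v, Real.arctan (Real.exp (u v - w (m.fc d))) =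
        Real.pi / 2 * m.dg v - Real.pi)

/-- the inradius is determined by the angle sum -/
def ST_RHO : Prop :=
  ∀ x y z ρ : ℝ, 0 < x → 0 < y → 0 < z → 0 < ρ →
    Real.arctan (x / ρ) + Real.arctan (y / ρ) + Real.arctan (z / ρ) = Real.pi → rho x y z = ρ

/-- angles of the triangle of three mutually tangent discs -/
def ST_ANG : Prop :=
  ∀ x y z : ℝ, 0 < x → 0 < y → 0 < z →
    0 < ang x y z ∧ ang x y z < Real.pi ∧ ang x y z + ang y z x + ang z x y = Real.pi

/-- the triangle closes -/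
def ST_CLO : Prop :=
  ∀ x y z : ℝ, 0 < x → 0 < y → 0 < z →
    ((x + y : ℝ) : ℂ) + ((y + z : ℝ) : ℂ) * Complex.exp ((Real.pi - ang y z x : ℝ) * Complex.I) +
      ((z + x : ℝ) : ℂ) *
        Complex.exp ((2 * Real.pi - ang y z x - ang z x y : ℝ) * Complex.I) = 0

/-- directions of the darts -/
def ST_DIR : Prop :=
  ∀ (D V F : Type) [Fintype D] [Fintype V] [Fintype F] (m : LM D V F) (o : D) (R : V → ℝ), m.Tri →
    m.Radii o R → ∃ ω : D → Real.Angle,
      (∀ d, ω (m.opp d) = ω d + (Real.pi : Real.Angle)) ∧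
      (∀ d, m.fc d ≠ m.fc o → ω (m.face d) = ω d + ((Real.pi - m.angd R (m.face d) : ℝ) : Real.Angle))

end

end CP
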